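import Mathlib.RingTheory.HopfAlgebra.Basic

/-!
Group-like projections in a Hopf algebra.
-/

open TensorProduct

namespace Pool.Agent.Work.MP_2a0e18_al

/-- A nonzero idempotent `P` with `Δ(P)(1 ⊗ P) = P ⊗ P = (1 ⊗ P)Δ(P)`. -/
def IsRightGroupLikeProj (k : Type) {A : Type} [CommSemiring k] [Semiring A] [HopfAlgebra k A]
    (P : A) : Prop :=
  P ≠ 0 ∧ P * P = P ∧ Coalgebra.comul (R := k) P * (1 ⊗ₜ[k] P) = P ⊗ₜ[k] P ∧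
    (1 ⊗ₜ[k] P) * Coalgebra.comul (R := k) P = P ⊗ₜ[k] P

/-- A nonzero idempotent `P` with `Δ(P)(P ⊗ 1) = P ⊗ P = (P ⊗ 1)Δ(P)`. -/
def IsLeftGroupLikeProj (k : Type) {A : Type} [CommSemiring k] [Semiring A] [HopfAlgebra k A]
    (P : A) : Prop :=
  P ≠ 0 ∧ P * P = P ∧ Coalgebra.comul (R := k) P * (P ⊗ₜ[k] 1) = P ⊗ₜ[k] P ∧
    (P ⊗ₜ[k] 1) * Coalgebra.comul (R := k) P = P ⊗ₜ[k] P

end Pool.Agent.Work.MP_2a0e18_al
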