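import Mathlib.RingTheory.HopfAlgebra.Basic
import Mathlib.Algebra.RingQuot
import Mathlib.Algebra.FreeAlgebra
import Mathlib.LinearAlgebra.Matrix.Notation
import Mathlib.Data.Matrix.Basic
import Mathlib.LinearAlgebra.FiniteDimensional.Defs
import Mathlib.Algebra.CharP.Two
import Mathlib.Tactic.NoncommRing
import Mathlib.Tactic.FinCases

/-!
The restricted enveloping algebra of the two-dimensional nonabelian restricted Lie algebra in
characteristic two.
-/

open TensorProduct

namespace Pool.Agent.Work.MP_2a0e18_al

variable (k : Type) [Field k]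

/-- The defining relations. -/
inductive Rel : FreeAlgebra k Bool → FreeAlgebra k Bool → Prop
  | tt : Rel (FreeAlgebra.ι k true * FreeAlgebra.ι k true) (FreeAlgebra.ι k true)
  | xx : Rel (FreeAlgebra.ι k false * FreeAlgebra.ι k false) 0
  | tx : Rel (FreeAlgebra.ι k true * FreeAlgebra.ι k false +
      FreeAlgebra.ι k false * FreeAlgebra.ι k true) (FreeAlgebra.ι k false)

/-- The algebra. -/
def U : Type := RingQuot (Rel k)

noncomputable instance : Ring (U k) := inferInstanceAs (Ring (RingQuot (Rel k)))
noncomputable instance : Algebra k (U k) := inferInstanceAs (Algebra k (RingQuot (Rel k)))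

/-- The quotient map. -/
noncomputable def mk : FreeAlgebra k Bool →ₐ[k] U k := RingQuot.mkAlgHom k (Rel k)

/-- The toral generator. -/
noncomputable def t : U k := mk k (FreeAlgebra.ι k true)

/-- The nilpotent generator. -/
noncomputable def x : U k := mk k (FreeAlgebra.ι k false)

/-- The relations in an arbitrary ring. -/
structure Good {B : Type*} [Ring B] (a b : B) : Prop where
  tt : a * a = a
  xx : b * b = 0
  tx : a * b + b * a = b

lemma good_tx : Good (t k) (x k) where
  tt := by
    have := RingQuot.mkAlgHom_rel k (Rel.tt (k := k))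
    rw [map_mul] at this
    exact this
  xx := by
    have := RingQuot.mkAlgHom_rel k (Rel.xx (k := k))
    rw [map_mul, map_zero] at this
    exact this
  tx := by
    have := RingQuot.mkAlgHom_rel k (Rel.tx (k := k))
    rw [map_add, map_mul, map_mul] at this
    exact this

variable {k}

/-- The universal property. -/
noncomputable def lift {B : Type*} [Ring B] [Algebra k B] {a b : B} (h : Good a b) :
    U k →ₐ[k] B :=
  RingQuot.liftAlgHom k ⟨FreeAlgebra.lift k fun c => if c then a else b, by
    intro u v huv
    cases huv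
    · simpa using h.tt
    · simpa using h.xx
    · simpa using h.tx⟩

@[simp] lemma lift_t {B : Type*} [Ring B] [Algebra k B] {a b : B} (h : Good a b) :
    lift (k := k) h (t k) = a := by
  have := RingQuot.liftAlgHom_mkAlgHom_apply k (s := Rel k)
    (FreeAlgebra.lift k fun c => if c then a else b) (by
      intro u v huv
      cases huv
      · simpa using h.tt
      · simpa using h.xx
      · simpa using h.tx) (FreeAlgebra.ι k true)
  exact this.trans (by simp)

@[simp] lemma lift_x {B : Type*} [Ring B] [Algebra k B] {a b : B} (h : Good a b) :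
    lift (k := k) h (x k) = b := by
  have := RingQuot.liftAlgHom_mkAlgHom_apply k (s := Rel k)
    (FreeAlgebra.lift k fun c => if c then a else b) (by
      intro u v huv
      cases huv
      · simpa using h.tt
      · simpa using h.xx
      · simpa using h.tx) (FreeAlgebra.ι k false)
  exact this.trans (by simp)

lemma hom_ext {B : Type*} [Semiring B] [Algebra k B] {f g : U k →ₐ[k] B}
    (ht : f (t k) = g (t k)) (hx : f (x k) = g (x k)) : f = g := by
  refine RingQuot.ringQuot_ext' k (s := Rel k) f g ?_
  ext c
  cases c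
  · exact hx
  · exact ht

lemma span_eq : Submodule.span k ({1, t k, x k, t k * x k} : Set (U k)) = ⊤ := by
  set M := Submodule.span k ({1, t k, x k, t k * x k} : Set (U k)) with hM
  have h1 : (1 : U k) ∈ M := Submodule.subset_span (by simp)
  have h2 : t k ∈ M := Submodule.subset_span (by simp)
  have h3 : x k ∈ M := Submodule.subset_span (by simp)
  have h4 : t k * x k ∈ M := Submodule.subset_span (by simp)
  have g := good_tx k
  have hxt : x k * t k = x k - t k * x k := by rw [eq_sub_iff_add_eq, add_comm, g.tx]
  have key : ∀ a : FreeAlgebra k Bool, ∀ m ∈ M, mk k a * m ∈ M := by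
    intro a
    induction a using FreeAlgebra.induction with
    | grade0 r =>
      intro m hm
      rw [AlgHom.commutes, ← Algebra.smul_def]
      exact M.smul_mem r hm
    | grade1 c =>
      intro m hm
      induction hm using Submodule.span_induction with
      | mem y hy =>
        cases c
        · change x k * y ∈ M
          rcases hy with rfl | rfl | rfl | rfl
          · simpa using h3
          · rw [hxt]; exact M.sub_mem h3 h4
          · rw [g.xx]; exact M.zero_mem
          · rw [← mul_assoc, hxt, sub_mul, mul_assoc, g.xx]; simp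
        · change t k * y ∈ M
          rcases hy with rfl | rfl | rfl | rfl
          · simpa using h2
          · rw [g.tt]; exact h2
          · exact h4
          · rw [← mul_assoc, g.tt]; exact h4
      | zero => simp
      | add y z _ _ hy hz => rw [mul_add]; exact M.add_mem hy hz
      | smul r y _ hy => rw [mul_smul_comm]; exact M.smul_mem r hy
    | mul a b ha hb =>
      intro m hm
      rw [map_mul, mul_assoc]
      exact ha _ (hb m hm)
    | add a b ha hb =>
      intro m hm
      rw [map_add, add_mul]
      exact M.add_mem (ha m hm) (hb m hm)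
  refine Submodule.eq_top_iff'.2 fun u => ?_
  obtain ⟨a, rfl⟩ := RingQuot.mkAlgHom_surjective k (Rel k) u
  have := key a 1 h1
  rw [mul_one] at this
  exact this

instance : FiniteDimensional k (U k) :=
  Module.Finite.of_fg_top (span_eq (k := k) ▸ Submodule.fg_span (Set.toFinite _))

variable [CharP k 2]

lemma add_self {B : Type*} [AddCommGroup B] [Module k B] (b : B) : b + b = 0 := by
  rw [← two_smul k b, CharTwo.two_eq_zero, zero_smul]

lemma good_comul :
    Good (t k ⊗ₜ[k] (1 : U k) + 1 ⊗ₜ[k] t k) (x k ⊗ₜ[k] (1 : U k) + 1 ⊗ₜ[k] x k) where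
  tt := by
    simp only [mul_add, add_mul, Algebra.TensorProduct.tmul_mul_tmul, mul_one, one_mul,
      (good_tx k).tt]
    rw [add_assoc, ← add_assoc (t k ⊗ₜ[k] t k), add_self (k := k), zero_add]
  xx := by
    simp only [mul_add, add_mul, Algebra.TensorProduct.tmul_mul_tmul, mul_one, one_mul,
      (good_tx k).xx, zero_tmul, tmul_zero, zero_add, add_zero, add_self (k := k)]
  tx := by
    simp only [mul_add, add_mul, Algebra.TensorProduct.tmul_mul_tmul, mul_one, one_mul]
    conv_rhs => rw [← (good_tx k).tx, add_tmul, tmul_add]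
    have h1 := add_self (k := k) (x k ⊗ₜ[k] t k)
    have h2 := add_self (k := k) (t k ⊗ₜ[k] x k)
    rw [← sub_eq_zero, ← add_zero (0 : U k ⊗[k] U k)]
    nth_rewrite 1 [← h1]
    rw [← h2]
    abel

omit [CharP k 2] in
lemma good_zero : Good (0 : k) 0 := ⟨by simp, by simp, by simp⟩

omit [CharP k 2] in
lemma good_op : Good (MulOpposite.op (t k)) (MulOpposite.op (x k)) where
  tt := by rw [← MulOpposite.op_mul, (good_tx k).tt]
  xx := by rw [← MulOpposite.op_mul, (good_tx k).xx, MulOpposite.op_zero]
  tx := by
    rw [← MulOpposite.op_mul, ← MulOpposite.op_mul, ← MulOpposite.op_add, add_comm,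
      (good_tx k).tx]

noncomputable instance : Bialgebra k (U k) :=
  Bialgebra.ofAlgHom (lift good_comul) (lift good_zero)
    (hom_ext
      (by simp [Algebra.TensorProduct.one_def, add_tmul, tmul_add, add_assoc])
      (by simp [Algebra.TensorProduct.one_def, add_tmul, tmul_add, add_assoc]))
    (hom_ext (by simp) (by simp))
    (hom_ext (by simp) (by simp))

lemma comul_eq (a : U k) : Coalgebra.comul (R := k) a = lift good_comul a := rfl
lemma counit_eq (a : U k) : Coalgebra.counit (R := k) a = lift (k := k) good_zero a := rfl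

/-- The antipode. -/
noncomputable def S : U k →ₗ[k] U k :=
  (MulOpposite.opLinearEquiv k).symm.toLinearMap ∘ₗ (lift (k := k) good_op).toLinearMap

omit [CharP k 2] in
lemma S_one : S (1 : U k) = 1 := by simp [S]
omit [CharP k 2] in
lemma S_t : S (t k) = t k := by simp [S]
omit [CharP k 2] in
lemma S_x : S (x k) = x k := by simp [S]
omit [CharP k 2] in
lemma S_tx : S (t k * x k) = x k * t k := by simp [S]

noncomputable instance : HopfAlgebra k (U k) where
  antipode := S
  mul_antipode_rTensor_comul := by
    refine LinearMap.ext_on span_eq ?_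
    rintro y (rfl | rfl | rfl | rfl)
    · simp [Algebra.TensorProduct.one_def, S_one]
    · simp [comul_eq, counit_eq, S_one, S_t, add_self (k := k)]
    · simp [comul_eq, counit_eq, S_one, S_x, add_self (k := k)]
    · simp only [LinearMap.comp_apply, comul_eq, counit_eq, map_mul, lift_t, lift_x, mul_add,
        add_mul, Algebra.TensorProduct.tmul_mul_tmul, mul_one, one_mul, map_add,
        LinearMap.rTensor_tmul, LinearMap.mul'_apply, S_one, S_t, S_x, S_tx, mul_zero, map_zero]
      rw [add_self (k := k), add_self (k := k), add_zero]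
  mul_antipode_lTensor_comul := by
    refine LinearMap.ext_on span_eq ?_
    rintro y (rfl | rfl | rfl | rfl)
    · simp [Algebra.TensorProduct.one_def, S_one]
    · simp [comul_eq, counit_eq, S_one, S_t, add_self (k := k)]
    · simp [comul_eq, counit_eq, S_one, S_x, add_self (k := k)]
    · simp only [LinearMap.comp_apply, comul_eq, counit_eq, map_mul, lift_t, lift_x, mul_add,
        add_mul, Algebra.TensorProduct.tmul_mul_tmul, mul_one, one_mul, map_add,
        LinearMap.lTensor_tmul, LinearMap.mul'_apply, S_one, S_t, S_x, S_tx, mul_zero, map_zero]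
      exact add_self (k := k) _

/-- The toral elements. -/
noncomputable def T (c : k) : U k := t k + c • x k

omit [CharP k 2] in
lemma T_mul_T (c : k) : T c * T c = T c := by
  have g := good_tx k
  simp only [T, mul_add, add_mul, smul_mul_assoc, mul_smul_comm, g.tt, g.xx, smul_zero, add_zero]
  rw [add_assoc, ← smul_add, add_comm (x k * t k), g.tx]

lemma comul_T (c : k) : Coalgebra.comul (R := k) (T c) = T c ⊗ₜ[k] 1 + 1 ⊗ₜ[k] T c := by
  simp only [T, comul_eq, map_add, map_smul, lift_t, lift_x, add_tmul, tmul_add, smul_add,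
    tmul_smul, smul_tmul']
  abel

/-- The projections. -/
noncomputable def P (c : k) : U k := 1 + T c

lemma T_mul_P (c : k) : T c * P c = 0 := by
  rw [P, mul_add, mul_one, T_mul_T, add_self (k := k)]

lemma P_mul_T (c : k) : P c * T c = 0 := by
  rw [P, add_mul, one_mul, T_mul_T, add_self (k := k)]

lemma P_mul_P (c : k) : P c * P c = P c := by
  conv_lhs => rw [P, mul_add, mul_one, ← P, P_mul_T, add_zero]

lemma comul_P (c : k) : Coalgebra.comul (R := k) (P c) = P c ⊗ₜ[k] 1 + 1 ⊗ₜ[k] T c := by
  rw [P, map_add, comul_T, Bialgebra.comul_one, Algebra.TensorProduct.one_def, add_tmul,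
    add_assoc]

lemma comul_P' (c : k) : Coalgebra.comul (R := k) (P c) = 1 ⊗ₜ[k] P c + T c ⊗ₜ[k] 1 := by
  rw [P, map_add, comul_T, Bialgebra.comul_one, Algebra.TensorProduct.one_def, tmul_add]
  abel

omit [CharP k 2] in
lemma good_matrix : Good (!![1, 0; 0, 0] : Matrix (Fin 2) (Fin 2) k) !![0, 1; 0, 0] where
  tt := by ext i j; fin_cases i <;> fin_cases j <;> simp
  xx := by ext i j; fin_cases i <;> fin_cases j <;> simp
  tx := by ext i j; fin_cases i <;> fin_cases j <;> simp

omit [CharP k 2] in
lemma rep_P (c : k) : lift (k := k) (good_matrix (k := k)) (P c) 0 1 = c ∧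
    lift (k := k) (good_matrix (k := k)) (P c) 1 1 = 1 := by
  simp [P, T]

omit [CharP k 2] in
lemma P_injective : Function.Injective (P : k → U k) := by
  intro c c' h
  rw [← (rep_P c).1, h, (rep_P c').1]

omit [CharP k 2] in
lemma P_ne_zero (c : k) : P c ≠ 0 := by
  intro h
  have := (rep_P c).2
  rw [h] at this
  simp at this

theorem infinite_set [Infinite k] :
    {Q : U k | Q ≠ 0 ∧ Q * Q = Q ∧
      Coalgebra.comul (R := k) Q * (1 ⊗ₜ[k] Q) = Q ⊗ₜ[k] Q ∧
      (1 ⊗ₜ[k] Q) * Coalgebra.comul (R := k) Q = Q ⊗ₜ[k] Q ∧
      Coalgebra.comul (R := k) Q * (Q ⊗ₜ[k] 1) = Q ⊗ₜ[k] Q ∧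
      (Q ⊗ₜ[k] 1) * Coalgebra.comul (R := k) Q = Q ⊗ₜ[k] Q}.Infinite := by
  refine Set.infinite_of_injective_forall_mem P_injective fun c =>
    ⟨P_ne_zero c, P_mul_P c, ?_, ?_, ?_, ?_⟩
  · simp [comul_P, add_mul, T_mul_P]
  · simp [comul_P, mul_add, P_mul_T]
  · simp [comul_P', add_mul, T_mul_P]
  · simp [comul_P', mul_add, P_mul_T]

end Pool.Agent.Work.MP_2a0e18_al
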